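import Pool.Agent.MP_ee8c61_ag.N3.Fin1
import Pool.Agent.MP_ee8c61_ag.Q3BK.Bk
import Pool.Agent.MP_ee8c61_ag.Q3.Defs

/-! The order of the poles on one model over a base from its strata of exponent zero. -/

namespace Pool.Agent.MP_ee8c61_ag.N3.Q3BK

open M3 M3RESID M3BK Set Polynomial
open Pool.Agent.MP_ee8c61_ag.Q3BK
open Pool.Agent.MP_96693b_ag.RS (Loc)
open Pool.Agent.MP_ee8c61_ag.M3L (scon schi)

set_option linter.unusedSectionVars false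

variable [Base]

/-- A triple point of exponent zero gives a triple root. -/
def H3 (b : ℂ[X]) (M : Mod 3) : Prop := ∀ (la : ℚ) (I : Finset M.J), I.card = 3 →
  (∀ i ∈ I, M.ex la i = 0) → ∀ Q ∈ M.pts, (∀ i ∈ I, M.On Q i) → (X + C (la : ℂ)) ^ 3 ∣ b

/-- A double curve of exponent zero gives a double root or does not contribute. -/
def T2M (f : Po 3) (b : ℂ[X]) (M : Mod 3) : Prop := ∀ (la : ℚ) (o j : M.J) (e : Dv (M.v o).kf)
  (G : DV (M.v o).kf), b.eval (-(la : ℂ)) = 0 → ¬(X + C (la : ℂ)) ^ 2 ∣ b → M.ex la o = 0 →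
  M.ex la j = 0 → (M.v o).pl.RsD (dvf f la) e → Nrm G → M.IsCv o j (lift (M.v o).pl G) →
  Q3.TY0 e (BK.xb (M.v o).pl) G

variable {f : Po 3} {M : Mod 3} {la : ℚ} {χ : H36.Chi} {C : Loc (KK 3) → Co (KK 3) 3}
  {lab : Loc (KK 3) → Fin 3 → Option M.J}

theorem ad1 {o : M.J} {k : Type} [Field k] [Algebra ℂ k] {P : Pl (KK 3) k}
    {S : LSf k (BK.xb P) M.J} {rs : Loc (KK 3) → Loc k} {e : Dv k} (hp : BK.Pts M f C lab)
    (hS : BK.IsSf M C lab o P S rs) (h0 : M.ex la o = 0) (he : P.RsD (dvf f la) e) :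
    S.Ad e fun j => (M.ex la j : ℂ) := fun x hx => by
  rw [hS.X] at hx
  obtain ⟨y, ⟨hy, h1⟩, rfl⟩ := hx
  obtain ⟨i, hi⟩ := ((hp y hy).on o).1 h1
  have h2 : (C y).Dat y.O P.o i := hS.po ▸ (hp y hy).dat i o hi
  have h3 := h2.exp ((hp y hy).ad la)
  simp only [hi, Option.elim_some, h0, Rat.cast_zero] at h3
  obtain ⟨hC, hl⟩ := hS.crd y hy i hi
  intro l
  rw [LSf.ea, hl]
  exact hC.Ad h2 (hS.O y hy h1) h3 he ((hp y hy).ad la) l

theorem card_three (hχ : IsEu χ) (hp : BK.Pts M f C lab) {I : Finset M.J}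
    (h : chiP χ (M.str I) ≠ 0) : I.card ≤ 3 := by
  obtain ⟨Q, hQ, h1⟩ := ne_of_chi hχ h
  choose i hi using fun j : I => ((hp Q hQ).on j).1 ((h1 j).2 j.2)
  simpa using Fintype.card_le_of_injective i fun j j' e =>
    Subtype.ext (Option.some.inj ((hi j).symm.trans (e ▸ hi j')))

open Classical in
theorem card_two {b : ℂ[X]} (h3 : H3 b M) (hχ : IsEu χ)
    (hn : ¬(X + Polynomial.C (la : ℂ)) ^ 3 ∣ b) (I : Finset M.J)
    (h : chiP χ (M.str I) ≠ 0) : (I.filter fun j => (M.ex la j : ℂ) = 0).card ≤ 2 := by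
  by_contra! h2
  obtain ⟨Q, hQ, h1⟩ := ne_of_chi hχ h
  obtain ⟨T, hT, hc⟩ := Finset.exists_subset_card_eq (n := 3) h2
  exact hn (h3 la T hc (fun i hi => by exact_mod_cast (Finset.mem_filter.1 (hT hi)).2) Q hQ
    fun i hi => (h1 i).2 (Finset.mem_filter.1 (hT hi)).1)

theorem pair_zero {b : ℂ[X]} (h2 : T2M f b M) (hM : M.OK f)
    (hχ : IsEu χ) (hr : b.eval (-(la : ℂ)) = 0) (hn : ¬(X + Polynomial.C (la : ℂ)) ^ 2 ∣ b)
    {o o' : M.J} (hne : o ≠ o') (ho : M.ex la o = 0) (ho' : M.ex la o' = 0) :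
    ∑ I with o ∈ I ∧ o' ∈ I, (chiP χ (M.str I) : ℂ) * WW (fun j => (M.ex la j : ℂ)) I = 0 := by
  obtain ⟨C, lab, hP⟩ := BK.rPt M3E.eout f M hM.gd.1 hM
  obtain ⟨S, rs, hS⟩ := BK.rSurf M3E.eout scon f M C lab o _ (M.v o).pl hM hP rfl
  obtain ⟨-, -, e, -, he, -⟩ := exists_rat (P := (M.v o).pl) hM ho rfl
  have ha := ad1 hP hS ho he
  have hT : S.St χ o fun I => chiP χ (M.str I) :=
    ⟨sintA χ _ hχ, sintB χ _ ℂ hχ, fun x hx => hS.bk_no hP hx,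
      fun I hI => BK.rCht M3E.eout scon schi χ f M C lab o _ _ _ _ I hχ hM hP hS hI⟩
  rw [(hT.pair hne _).2, ← rg_lab S hχ ha (j := o') (by exact_mod_cast ho') ?_]
  · exact hT.B.congr _ _ _ fun x hx => (S.w1_W (by exact_mod_cast ho) hx.1).symm
  intro x hx i G hi hG
  have hE : Exp e G 0 := by simpa [LSf.ea, hi, ho'] using hG.exp (ha x hx)
  have hr' := S.rg x hx
  rw [hS.X] at hx
  obtain ⟨Q, ⟨hQ, h1⟩, rfl⟩ := hx
  obtain ⟨l, hl⟩ := ((hP Q hQ).on o).1 h1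
  obtain ⟨hC, h4⟩ := hS.crd Q hQ l hl
  have hV : M.IsCv o o' (lift (M.v o).pl G) :=
    BK.RSurf.isCv (P := (M.v o).pl) (M3E.eout.bas 3 f M hM) rfl (hP Q hQ)
      ⟨fun g hg => h1 g hg, hS.O Q hQ h1⟩ hl hC ((h4 i).symm.trans hi) hG
  obtain ⟨σ, θ, μ, t1, t2, t3, t4⟩ := h2 la o o' e G hr hn ho ho' he ⟨_, hG.adp.vz⟩ hV
  exact ty_of hr' hG hE (fun e' h => ⟨σ, θ, μ, t1, t2, t3 e' h⟩) t4

open Classical in
theorem topM {b : ℂ[X]} {β : Fin 3 → H59.PX 3 (KK 3)} {Q : H59.PX 3 (KK 3)} (hb : BSd f b β Q)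
    (hM : M.OK f) (hχ : IsEu χ) (h3 : H3 b M) (h2 : T2M f b M) :
    ∃ p : ℂ[X], algebraMap ℂ[X] (RatFunc ℂ) b * M.zeta χ = algebraMap ℂ[X] (RatFunc ℂ) p := by
  refine poly_of_reg fun s => ?_
  by_cases hr : b.IsRoot s
  swap
  · exact mul_mem (poly_mem s b) fun h => hr (mainB f b β Q M χ hb hM hχ s h)
  by_cases hj : ∃ j, (M.a j : ℂ) * s + M.k j + 1 = 0
  swap
  · push Not at hj
    exact mul_mem (poly_mem s b) (sum_mem fun I _ =>
      mul_mem (intCast_mem _ _) (prod_mem fun i _ => lin_mem (hj i)))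
  obtain ⟨j, hj⟩ := hj
  have ha : (M.a j : ℂ) ≠ 0 := Nat.cast_ne_zero.2 (hM.pos j).ne'
  obtain ⟨la, rfl⟩ : ∃ la : ℚ, s = -(la : ℂ) := ⟨(M.k j + 1) / M.a j, by
    push_cast
    field_simp
    linear_combination hj⟩
  have hx : ∀ j, (M.ex la j : ℂ) = M.k j + 1 - la * M.a j := fun j => by simp [Mod.ex]
  by_cases c3 : (X + Polynomial.C (la : ℂ)) ^ 3 ∣ b
  · obtain ⟨C, lab, hP⟩ := BK.rPt M3E.eout f M hM.gd.1 hM
    exact mul_reg c3 (ord_le hM.pos hx fun I hI =>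
      (Finset.card_filter_le _ _).trans (card_three hχ hP hI))
  have t2 := card_two h3 hχ c3
  by_cases c2 : (X + Polynomial.C (la : ℂ)) ^ 2 ∣ b
  · exact mul_reg c2 (ord_le hM.pos hx t2)
  refine mul_reg (n := 1) ?_ ?_
  · rwa [pow_one, ← sub_neg_eq_add, ← Polynomial.C_neg, dvd_iff_isRoot]
  rw [pow_one]
  exact ord_one hM.pos hx t2 (comb2 _ _ _ t2 fun o o' hn ho ho' =>
    pair_zero h2 hM hχ hr c2 hn (by exact_mod_cast ho) (by exact_mod_cast ho'))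

end Pool.Agent.MP_ee8c61_ag.N3.Q3BK
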